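import Mathlib

/-!
# `H`-selfadjoint square roots of `X^[*] X` with prescribed kernel

Counterexample with `n = 4`, over `ℝ` and over `ℂ`: `H = diag(1, 1, -1, -1)`,
`X e₁ = e₃`, `X e₂ = e₄`, `X e₃ = 2 e₁`, `X e₄ = 2 e₂`, so that
`X^[*] X = diag(-1, -1, -4, -4)`, which is the square of the invertible matrix `Y` with
`Y e₁ = e₂`, `Y e₂ = -e₁`, `Y e₃ = 2 e₄`, `Y e₄ = -2 e₃`.
-/

set_option autoImplicit false

namespace Pool.Agent.Results.MP_154e02_al.NoSquareRoot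

open Matrix

variable {𝕜 : Type*} [RCLike 𝕜] {n : ℕ}

/-- The `H`-adjoint `X^[*] = H⁻¹ X* H`. -/
noncomputable def hAdj (H X : Matrix (Fin n) (Fin n) 𝕜) : Matrix (Fin n) (Fin n) 𝕜 :=
  H⁻¹ * Xᴴ * H

/-- The kernel of the matrix `X`, as a subspace of `𝕜ⁿ`. -/
def kernel (X : Matrix (Fin n) (Fin n) 𝕜) : Submodule 𝕜 (Fin n → 𝕜) :=
  LinearMap.ker X.mulVecLin

section Example

variable (𝕜)

/-- `diag(1, 1, -1, -1)` -/
def H0 : Matrix (Fin 4) (Fin 4) 𝕜 := !![1, 0, 0, 0; 0, 1, 0, 0; 0, 0, -1, 0; 0, 0, 0, -1]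

/-- `e₁ ↦ e₃`, `e₂ ↦ e₄`, `e₃ ↦ 2 e₁`, `e₄ ↦ 2 e₂` -/
def X0 : Matrix (Fin 4) (Fin 4) 𝕜 := !![0, 0, 2, 0; 0, 0, 0, 2; 1, 0, 0, 0; 0, 1, 0, 0]

/-- `e₁ ↦ e₂`, `e₂ ↦ -e₁`, `e₃ ↦ 2 e₄`, `e₄ ↦ -2 e₃` -/
def Y0 : Matrix (Fin 4) (Fin 4) 𝕜 := !![0, -1, 0, 0; 1, 0, 0, 0; 0, 0, 0, -2; 0, 0, 2, 0]

/-- `diag(-1, -1, -4, -4)` -/
def B0 : Matrix (Fin 4) (Fin 4) 𝕜 := !![-1, 0, 0, 0; 0, -1, 0, 0; 0, 0, -4, 0; 0, 0, 0, -4]

lemma H0_mul_H0 : H0 𝕜 * H0 𝕜 = 1 := by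
  ext i j
  fin_cases i <;> fin_cases j <;> simp [H0, mul_apply, Fin.sum_univ_four]

lemma H0_inv : (H0 𝕜)⁻¹ = H0 𝕜 := inv_eq_left_inv (H0_mul_H0 𝕜)

lemma X0_conjTranspose :
    (X0 𝕜)ᴴ = !![0, 0, 1, 0; 0, 0, 0, 1; 2, 0, 0, 0; 0, 2, 0, 0] := by
  have h2 : star (2 : 𝕜) = 2 := by
    rw [← map_ofNat (algebraMap ℝ 𝕜) 2, RCLike.star_def]
    exact RCLike.conj_ofReal 2
  ext i j
  fin_cases i <;> fin_cases j <;> simp [X0, conjTranspose_apply]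

lemma hAdj_X0_mul : hAdj (H0 𝕜) (X0 𝕜) * X0 𝕜 = B0 𝕜 := by
  rw [hAdj, H0_inv, X0_conjTranspose]
  ext i j
  fin_cases i <;> fin_cases j <;>
    simp [H0, X0, B0, mul_apply, Fin.sum_univ_four] <;> norm_num

lemma Y0_sq : Y0 𝕜 ^ 2 = B0 𝕜 := by
  rw [sq]
  ext i j
  fin_cases i <;> fin_cases j <;> simp [Y0, B0, mul_apply, Fin.sum_univ_four] <;> norm_num

lemma kernel_eq_bot {X Z : Matrix (Fin n) (Fin n) 𝕜} (h : Z * X = 1) : kernel X = ⊥ := by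
  rw [kernel, LinearMap.ker_eq_bot']
  intro v hv
  have : Z *ᵥ (X *ᵥ v) = 0 := by
    rw [show X *ᵥ v = 0 from hv, mulVec_zero]
  rwa [mulVec_mulVec, h, one_mulVec] at this

lemma kernel_X0 : kernel (X0 𝕜) = ⊥ := by
  refine kernel_eq_bot 𝕜 (Z := (!![0, 0, 1, 0; 0, 0, 0, 1; 2⁻¹, 0, 0, 0; 0, 2⁻¹, 0, 0] :
    Matrix (Fin 4) (Fin 4) 𝕜)) ?_
  ext i j
  fin_cases i <;> fin_cases j <;> simp [X0, mul_apply, Fin.sum_univ_four]

lemma kernel_Y0 : kernel (Y0 𝕜) = ⊥ := by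
  refine kernel_eq_bot 𝕜 (Z := (!![0, 1, 0, 0; -1, 0, 0, 0; 0, 0, 0, 2⁻¹; 0, 0, -2⁻¹, 0] :
    Matrix (Fin 4) (Fin 4) 𝕜)) ?_
  ext i j
  fin_cases i <;> fin_cases j <;> simp [Y0, mul_apply, Fin.sum_univ_four]

lemma no_root (A : Matrix (Fin 4) (Fin 4) 𝕜) (hA : hAdj (H0 𝕜) A = A) : A ^ 2 ≠ B0 𝕜 := by
  intro h
  have hc : A * B0 𝕜 = B0 𝕜 * A := by
    rw [← h, ← pow_succ, ← pow_succ']
  have e13 : A 0 2 = 0 := by
    have := congrFun (congrFun hc 0) 2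
    simp only [mul_apply, Fin.sum_univ_four] at this
    simp [B0] at this
    linear_combination (1 / 3 : 𝕜) * this
  have e14 : A 0 3 = 0 := by
    have := congrFun (congrFun hc 0) 3
    simp only [mul_apply, Fin.sum_univ_four] at this
    simp [B0] at this
    linear_combination (1 / 3 : 𝕜) * this
  have s11 : star (A 0 0) = A 0 0 := by
    have := congrFun (congrFun hA 0) 0
    rw [hAdj, H0_inv] at this
    simp only [mul_apply, Fin.sum_univ_four, conjTranspose_apply] at this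
    simpa [H0] using this
  have s12 : star (A 0 1) = A 1 0 := by
    have := congrFun (congrFun hA 1) 0
    rw [hAdj, H0_inv] at this
    simp only [mul_apply, Fin.sum_univ_four, conjTranspose_apply] at this
    simpa [H0] using this
  have h11 := congrFun (congrFun h 0) 0
  rw [sq] at h11
  simp only [mul_apply, Fin.sum_univ_four, e13, e14, zero_mul, add_zero] at h11
  have h1 : A 0 0 * star (A 0 0) + A 0 1 * star (A 0 1) = -1 := by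
    rw [s11, s12, h11]
    simp [B0]
  rw [RCLike.star_def, RCLike.mul_conj, RCLike.mul_conj] at h1
  have h2 : ((‖A 0 0‖ ^ 2 + ‖A 0 1‖ ^ 2 : ℝ) : 𝕜) = ((-1 : ℝ) : 𝕜) := by
    push_cast
    exact h1
  have h3 : ‖A 0 0‖ ^ 2 + ‖A 0 1‖ ^ 2 = -1 := RCLike.ofReal_injective h2
  nlinarith [sq_nonneg ‖A 0 0‖, sq_nonneg ‖A 0 1‖]

end Example

/-- For `𝕜 = ℝ` and for `𝕜 = ℂ` there are an invertible hermitian `H` and matrices `X`, `Y` with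
`Y² = X^[*] X` and `ker Y = ker X`, such that no `H`-selfadjoint `A` satisfies `A² = X^[*] X`
(with or without the condition `ker A = ker X`). -/
theorem result (𝕜 : Type*) [RCLike 𝕜] :
    ∃ (n : ℕ) (H X Y : Matrix (Fin n) (Fin n) 𝕜), H.IsHermitian ∧ IsUnit H ∧
      Y ^ 2 = hAdj H X * X ∧ kernel Y = kernel X ∧
      ∀ A : Matrix (Fin n) (Fin n) 𝕜, hAdj H A = A → A ^ 2 ≠ hAdj H X * X := by
  refine ⟨4, H0 𝕜, X0 𝕜, Y0 𝕜, ?_, ?_, ?_, ?_, fun A hA => ?_⟩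
  · ext i j
    fin_cases i <;> fin_cases j <;> simp [H0, conjTranspose_apply]
  · exact IsUnit.of_mul_eq_one _ (H0_mul_H0 𝕜)
  · rw [Y0_sq, hAdj_X0_mul]
  · rw [kernel_X0, kernel_Y0]
  · rw [hAdj_X0_mul]
    exact no_root 𝕜 A hA

end Pool.Agent.Results.MP_154e02_al.NoSquareRoot
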